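import Mathlib
import Pool.Agent.H57.Cong

namespace Pool.Agent.Results.MP_0a3b9a_nt.Fails

open Finset Pool.Agent.H57.Cong

/-- the first sum -/
def S1 (p : ℕ) : ℚ := ∑ k ∈ range p, bn (-1 / 3) k * bn (-1 / 6) k * (27 / 2) ^ k

/-- The congruence for the first sum fails in the case 11, 17 mod 24; e stands for c / d mod p. -/
theorem result : ¬ ∀ p : ℕ, p.Prime → (p % 24 = 11 ∨ p % 24 = 17) → ∀ c d e : ℤ,
    (p : ℤ) = c ^ 2 + 2 * d ^ 2 → c % 4 = 1 → (p : ℤ) ∣ e * d - c →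
    Cong p 2 (S1 p) ((-1) ^ (p / 8) * (jacobiSym (2 + e) p : ℚ) * (10 * d - 5 * p / (4 * d))) := by
  intro h
  have := h 11 (by norm_num) (by norm_num) (-3) 1 (-3) (by norm_num) (by norm_num) (by norm_num)
  rw [show jacobiSym (2 + -3) 11 = -1 by norm_num] at this
  refine not_cong (by norm_num) ?_ this
  decide +kernel

end Pool.Agent.Results.MP_0a3b9a_nt.Fails
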